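import Mathlib

/-! On the two by four grid the minimum spanning tree splits evenly more often than the uniform one. -/

open MeasureTheory Finset Function SimpleGraph

namespace Pool.Agent.H.MP_ddaf7c_pr

noncomputable abbrev ν : Measure ℝ := volume.restrict (Set.Icc 0 1)

instance : IsProbabilityMeasure ν := ⟨by simp⟩

section
variable {ι κ : Type} [Fintype ι] [DecidableEq ι] [DecidableEq κ]

lemma res (x : ι) {B : Set (ι → ℝ)} (h : MeasurableSet B) :
    Measure.pi (fun _ => ν) B = ∫⁻ s, Measure.pi (fun _ => ν) {w | update w x s ∈ B} ∂ν := by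
  have m : Measurable fun p : (ι → ℝ) × ℝ => B.indicator (1 : (ι → ℝ) → ENNReal) (update p.1 x p.2) :=
    (measurable_one.indicator h).comp measurable_update'
  rw [← lintegral_indicator_one h, lintegral_eq_of_lmarginal_eq {x} (measurable_one.indicator h)
    (m.lintegral_prod_right' (ν := ν)) (by simp [lmarginal_singleton]), lintegral_lintegral_swap m.aemeasurable]
  exact lintegral_congr fun s => lintegral_indicator_one (measurable_update_left h)

def c (P : κ → Finset κ) : ℕ → Finset κ → ℚ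
  | 0, _ => 1
  | k + 1, D => (∑ e ∈ D, c P k (D.erase e)) / (#D + #(D.biUnion P) : ℕ)

lemma c0 (P : κ → Finset κ) : ∀ k D, 0 ≤ c P k D
  | 0, _ => zero_le_one
  | k + 1, _ => div_nonneg (sum_nonneg fun _ _ => c0 P k _) (Nat.cast_nonneg _)

def Ev (ed : κ → ι) (P : κ → Finset κ) (D Q : Finset κ) (t : ℝ) : Set (ι → ℝ) :=
  {w | (∀ e ∈ D, w (ed e) ≤ t ∧ ∀ f ∈ P e, w (ed f) ≤ w (ed e)) ∧ ∀ f ∈ Q, w (ed f) ≤ t}

lemma mEv (ed : κ → ι) (P : κ → Finset κ) (D Q : Finset κ) {t : (ι → ℝ) → ℝ} (ht : Measurable t) :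
    MeasurableSet {w | w ∈ Ev ed P D Q (t w)} := by
  have a (x) : MeasurableSet {w : ι → ℝ | w x ≤ t w} := measurableSet_le (measurable_pi_apply _) ht
  change MeasurableSet {w : ι → ℝ | _ ∧ _}
  simp only [Set.ofPred_and, Set.ofPred_forall]
  exact (D.measurableSet_biInter fun e _ => (a _).inter ((P e).measurableSet_biInter fun f _ =>
    measurableSet_le (measurable_pi_apply _) (measurable_pi_apply _))).inter (Q.measurableSet_biInter fun f _ => a _)

lemma bound {ed : κ → ι} (hi : Injective ed) (P : κ → Finset κ) (k : ℕ) : ∀ D : Finset κ, #D = k →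
    Disjoint D (D.biUnion P) → ∀ Q, Disjoint D Q → ∀ t ∈ Set.Icc (0 : ℝ) 1, Measure.pi (fun _ => ν) (Ev ed P D Q t) ≤
      ENNReal.ofReal (c P k D * t ^ (#D + #(Q ∪ D.biUnion P))) := by
  have low {k D} (h : ∀ t ∈ Set.Icc (0 : ℝ) 1, Measure.pi (fun _ => ν) (Ev ed P D ∅ t) ≤
      ENNReal.ofReal (c P k D * t ^ (#D + #(∅ ∪ D.biUnion P)))) (Q) : Disjoint D Q → ∀ t ∈ Set.Icc (0 : ℝ) 1,
      Measure.pi (fun _ => ν) (Ev ed P D Q t) ≤ ENNReal.ofReal (c P k D * t ^ (#D + #(Q ∪ D.biUnion P))) := by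
    induction Q using Finset.induction_on with
    | empty => exact fun _ => h
    | insert x Q n ih =>
      intro d t ht
      rw [disjoint_insert_right] at d
      replace ih := ih d.2 t ht
      by_cases e : x ∈ Q ∪ D.biUnion P
      · rw [insert_union, insert_eq_of_mem e]
        refine (measure_mono fun w r => ?_).trans ih
        exact ⟨r.1, fun f s => r.2 f (mem_insert_of_mem s)⟩
      rw [insert_union, card_insert_of_notMem e, ← add_assoc, pow_succ, ← mul_assoc, res (ed x)
        (B := Ev ed P D _ t) (mEv ed P D _ measurable_const), ENNReal.ofReal_mul' ht.1]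
      refine (lintegral_mono (g := (Set.Iic t).indicator fun _ => _) fun s => ?_).trans
        (by rw [lintegral_indicator_const measurableSet_Iic, Measure.restrict_apply measurableSet_Iic]
            exact mul_le_mul_right ((measure_mono (show _ ⊆ Set.Icc 0 t from fun s r => ⟨r.2.1, r.1⟩)).trans_eq
              (by simp)) _)
      by_cases l : s ≤ t
      · refine ((measure_mono fun w r => ?_).trans ih).trans_eq (by rw [Set.indicator_of_mem (Set.mem_Iic.2 l)])
        have u {y} (q : y ≠ x) : update w (ed x) s (ed y) = w (ed y) := update_of_ne (hi.ne q) _ _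
        simp only [mem_union, mem_biUnion, not_or, not_exists, not_and] at e
        refine ⟨fun y q => ?_, fun f q => u (ne_of_mem_of_not_mem q n) ▸ r.2 f (mem_insert_of_mem q)⟩
        rw [← u (ne_of_mem_of_not_mem q d.1)]
        exact ⟨(r.1 y q).1, fun f p => u (ne_of_mem_of_not_mem p (e.2 y q)) ▸ (r.1 y q).2 f p⟩
      · exact (measure_mono fun w r => l (by simpa using r.2 x (mem_insert_self _ _))).trans (measure_empty.trans_le zero_le)
  induction k with
  | zero =>
    intro D h _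
    refine low fun t _ => prob_le_one.trans_eq ?_
    simp [c, card_eq_zero.1 h]
  | succ k ih =>
    refine fun D h d => low fun t ht => ?_
    have s : Ev ed P D ∅ t ⊆ ⋃ e ∈ D, {w | w (ed e) ≤ t} ∩ {w | w ∈ Ev ed P (D.erase e) (P e) (w (ed e))} := fun w r => by
      obtain ⟨e, a, b⟩ := exists_max_image D (fun e => w (ed e)) (card_pos.1 (by omega))
      exact Set.mem_biUnion a ⟨(r.1 e a).1, fun y q => ⟨b y (mem_of_mem_erase q), (r.1 y (mem_of_mem_erase q)).2⟩,
        (r.1 e a).2⟩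
    refine (measure_mono s).trans ((measure_biUnion_finset_le _ _).trans ?_)
    obtain ⟨n, hn⟩ : ∃ n, #D + #(D.biUnion P) = n + 1 := ⟨k + #(D.biUnion P), by omega⟩
    rw [empty_union, c, hn, Rat.cast_div, div_mul_eq_mul_div, Rat.cast_sum, sum_mul, sum_div,
      ENNReal.ofReal_sum_of_nonneg fun e _ => by have := c0 P k (D.erase e); have := ht.1; positivity]
    refine sum_le_sum fun e a => ?_
    have dP : Disjoint D (P e) := d.mono_right (subset_biUnion_of_mem P a)
    have dU : (D.erase e).biUnion P ⊆ D.biUnion P := biUnion_subset_biUnion_of_subset_left _ (erase_subset _ _)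
    have en : #(D.erase e) + #(P e ∪ (D.erase e).biUnion P) = n := by
      rw [← biUnion_insert, insert_erase a, card_erase_of_mem a]
      omega
    have C : (0 : ℝ) ≤ c P k (D.erase e) := by exact_mod_cast c0 P k _
    rw [res (ed e) ((measurableSet_le (measurable_pi_apply _) measurable_const).inter
      (mEv ed P _ _ (measurable_pi_apply _)))]
    refine (setLIntegral_mono' (g := (Set.Iic t).indicator fun s => ENNReal.ofReal (c P k (D.erase e) * s ^ n))
      measurableSet_Icc fun s hs => ?_).trans ?_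
    · by_cases l : s ≤ t
      · refine ((measure_mono fun w r => ?_).trans (ih _ (by rw [card_erase_of_mem a]; omega)
          (d.mono (erase_subset _ _) dU) (P e) (dP.mono_left (erase_subset _ _)) s hs)).trans_eq
          (by rw [en, Set.indicator_of_mem (Set.mem_Iic.2 l)])
        have u {y} (q : y ≠ e) : update w (ed e) s (ed y) = w (ed y) := update_of_ne (hi.ne q) _ _
        have v {y} (q : y ∈ D.biUnion P) : y ≠ e := ne_of_mem_of_not_mem q (disjoint_left.1 d a)
        have r := r.2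
        simp only [Set.mem_ofPred_eq, update_self] at r
        refine ⟨fun y q => ?_, fun f q => u (v (mem_biUnion.2 ⟨e, a, q⟩)) ▸ r.2 f q⟩
        rw [← u (ne_of_mem_erase q)]
        exact ⟨(r.1 y q).1, fun f p => u (v (mem_biUnion.2 ⟨y, mem_of_mem_erase q, p⟩)) ▸ (r.1 y q).2 f p⟩
      · exact (measure_mono fun w r => l (by simpa using r.1)).trans (measure_empty.trans_le zero_le)
    · rw [lintegral_indicator measurableSet_Iic, Measure.restrict_restrict measurableSet_Iic,
        show Set.Iic t ∩ Set.Icc 0 1 = Set.Icc 0 t from Set.ext fun s =>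
          ⟨fun r => ⟨r.2.1, r.1⟩, fun r => ⟨r.2, r.1, r.2.trans ht.2⟩⟩,
        ← ofReal_integral_eq_lintegral_ofReal (Continuous.integrableOn_Icc (by fun_prop))
          ((ae_restrict_mem measurableSet_Icc).mono fun s r => mul_nonneg C (pow_nonneg r.1 _)),
        integral_Icc_eq_integral_Ioc, ← intervalIntegral.integral_of_le ht.1, intervalIntegral.integral_const_mul,
        integral_pow]
      simp [mul_div_assoc]

end

abbrev V := Fin 2 × Fin 4

def A : Fin 10 → V := ![(0, 0), (0, 0), (1, 0), (0, 1), (0, 1), (1, 1), (0, 2), (0, 2), (1, 2), (0, 3)]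

def B : Fin 10 → V := ![(1, 0), (0, 1), (1, 1), (1, 1), (0, 2), (1, 2), (1, 2), (0, 3), (1, 3), (1, 3)]

def ed (i : Fin 10) : Sym2 V := s(A i, B i)

lemma edi : Injective ed := by decide

def vx (v : V) : ℕ := 2 * v.2 + v.1

def toF (m : ℕ) : Finset (Fin 10) := univ.filter fun i => m.testBit i

def gr (m : ℕ) : SimpleGraph V := fromEdgeSet ((toF m).image ed)

lemma gr_e (m : ℕ) : (gr m).edgeSet = (toF m).image ed := by
  rw [gr, edgeSet_fromEdgeSet]
  refine sdiff_eq_left.2 (Set.disjoint_left.2 fun e h => ?_)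
  obtain ⟨i, -, rfl⟩ := mem_image.1 h
  exact (by decide : ∀ i, ¬ (ed i).IsDiag) i

def sw (m : ℕ) (l : List (ℕ × ℕ × ℕ)) (S : ℕ) : ℕ := l.foldr (fun x (S : ℕ) => if m.testBit x.1 &&
  (S.testBit x.2.1 || S.testBit x.2.2) then S ||| 2 ^ x.2.1 ||| 2 ^ x.2.2 else S) S

def LL : List (ℕ × ℕ × ℕ) :=
  [(7, 4, 6), (8, 5, 7), (9, 6, 7), (8, 5, 7), (7, 4, 6), (6, 4, 5), (5, 3, 5), (4, 2, 4), (2, 1, 3), (1, 0, 2),
  (0, 0, 1), (1, 0, 2), (2, 1, 3), (3, 2, 3), (4, 2, 4), (5, 3, 5), (6, 4, 5), (7, 4, 6), (8, 5, 7), (9, 6, 7),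
  (8, 5, 7), (7, 4, 6), (5, 3, 5), (4, 2, 4), (2, 1, 3), (1, 0, 2), (0, 0, 1)]

def rc (m : ℕ) (v : V) : ℕ := sw m LL (2 ^ vx v)

lemma rc_cl : ∀ m < 1024, #(toF m) / 2 = 3 → ∀ v, (rc m v).testBit (vx v) ∧
    ∀ i : Fin 10, m.testBit i → (rc m v).testBit (vx (A i)) = (rc m v).testBit (vx (B i)) := by decide +kernel

lemma vxi : Injective vx := by decide

lemma sw_re {m S : ℕ} {v : V} (h : ∀ u, S.testBit (vx u) → (gr m).Reachable v u) (l : List (ℕ × ℕ × ℕ))
    (hl : ∀ x ∈ l, ∃ i : Fin 10, x = (i.1, vx (A i), vx (B i))) : ∀ u, (sw m l S).testBit (vx u) → (gr m).Reachable v u := by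
  induction l with
  | nil => exact h
  | cons x l ih =>
    obtain ⟨i, rfl⟩ := hl x List.mem_cons_self
    replace ih := ih fun y t => hl y (List.mem_cons_of_mem _ t)
    change ∀ u, Nat.testBit (if m.testBit i && ((sw m l S).testBit _ || (sw m l S).testBit _) then
      sw m l S ||| _ ||| _ else sw m l S) _ → _
    split_ifs with t
    · simp only [Bool.and_eq_true, Bool.or_eq_true] at t
      have a : (gr m).Adj (A i) (B i) := by
        rw [← mem_edgeSet, gr_e]
        exact mem_image_of_mem ed (by simpa [toF] using t.1)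
      have b : (gr m).Reachable v (A i) := t.2.elim (ih _) fun r => (ih _ r).trans a.symm.reachable
      simp only [Nat.testBit_or, Nat.testBit_two_pow, Bool.or_eq_true, decide_eq_true_eq, vxi.eq_iff]
      rintro u ((r | rfl) | rfl)
      exacts [ih u r, b, b.trans a.reachable]
    · exact ih

lemma rc_iff {m : ℕ} (h : m < 1024) (k : #(toF m) / 2 = 3) (v u : V) : (gr m).Reachable v u ↔ (rc m v).testBit (vx u) := by
  obtain ⟨a, b⟩ := rc_cl m h k v
  refine ⟨fun r => ?_, sw_re (fun u t => ?_) _ (by decide) u⟩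
  · rw [reachable_iff_reflTransGen] at r
    induction r with
    | refl => exact a
    | tail _ t ih =>
      rw [← mem_edgeSet, gr_e] at t
      obtain ⟨i, p, q⟩ := mem_image.1 t
      have := b i (by simpa [toF] using p)
      rcases Sym2.eq_iff.1 q with ⟨rfl, rfl⟩ | ⟨rfl, rfl⟩
      exacts [this ▸ ih, this ▸ ih]
  · rw [Nat.testBit_two_pow, decide_eq_true_eq, vxi.eq_iff] at t
    exact t ▸ .rfl

def G : SimpleGraph V := pathGraph 2 □ pathGraph 4

def Split {W : Type} (T : SimpleGraph W) : Prop :=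
  ∃ e ∈ T.edgeSet, ∀ v, 2 * Nat.card {u // (T.deleteEdges {e}).Reachable v u} = Nat.card W

def IsMST {W : Type} (G : SimpleGraph W) (w : Sym2 W → ℝ) (T : SimpleGraph W) : Prop :=
  T ≤ G ∧ T.IsTree ∧ ∀ S ≤ G, S.IsTree → ∑ᶠ e ∈ T.edgeSet, w e ≤ ∑ᶠ e ∈ S.edgeSet, w e

lemma G_e : G = gr 1023 := by
  ext u v
  rw [← (gr _).mem_edgeSet, gr_e, mem_coe]
  simp only [G, boxProd_adj, pathGraph_adj]
  revert u v
  decide

lemma toF_or (a b : ℕ) : toF (a ||| b) = toF a ∪ toF b := by ext; simp [toF]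

lemma p2 (i : Fin 10) : 2 ^ i.1 < 2 ^ 10 := Nat.pow_lt_pow_right one_lt_two i.2

lemma toF_sj (S : Finset (Fin 10)) : ∃ m < 1024, toF m = S := by
  induction S using Finset.induction_on with
  | empty => exact ⟨0, by norm_num, by simp [toF]⟩
  | insert i S _ ih =>
    obtain ⟨m, a, rfl⟩ := ih
    exact ⟨2 ^ i.1 ||| m, Nat.or_lt_two_pow (p2 i) a, by
      ext j
      simp [toF, Nat.testBit_two_pow, Fin.val_inj, @eq_comm _ i j]⟩

lemma le_iff (T : SimpleGraph V) : T ≤ G ↔ ∃ m < 1024, gr m = T := by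
  classical
  have U : toF 1023 = univ := by decide
  rw [G_e, ← edgeSet_subset_edgeSet, gr_e, U]
  refine ⟨fun h => ?_, fun ⟨m, _, e⟩ => e ▸ (gr_e m).trans_subset (coe_subset.2 (image_subset_image (subset_univ _)))⟩
  obtain ⟨m, a, b⟩ := toF_sj (univ.filter fun i => ed i ∈ T.edgeSet)
  refine ⟨m, a, edgeSet_injective ?_⟩
  rw [gr_e, b]
  ext e
  simp only [coe_image, coe_filter, mem_univ, true_and, Set.mem_image, Set.mem_ofPred_eq]
  refine ⟨fun ⟨i, p, q⟩ => q ▸ p, fun t => ?_⟩
  obtain ⟨i, -, rfl⟩ := mem_image.1 (h t)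
  exact ⟨i, t, rfl⟩

lemma gr_inj : Set.InjOn gr (range 1024) := fun a p b q e => by
  have := congrArg edgeSet e
  rw [gr_e, gr_e, coe_inj, (image_injective edi).eq_iff] at this
  refine Nat.eq_of_testBit_eq fun i => ?_
  by_cases l : i < 10
  · simpa [toF] using Finset.ext_iff.1 this ⟨i, l⟩
  · have := Nat.pow_le_pow_right two_pos (not_lt.1 l)
    rw [Nat.testBit_lt_two_pow ((mem_range.1 p).trans_le this), Nat.testBit_lt_two_pow ((mem_range.1 q).trans_le this)]

lemma cnt {p : SimpleGraph V → Prop} {b : ℕ → Prop} [DecidablePred b] (h : ∀ m < 1024, p (gr m) ↔ b m) :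
    Nat.card {T // T ≤ G ∧ p T} = #((range 1024).filter b) := by
  rw [← Set.ncard_coe_finset, ← (gr_inj.mono (coe_subset.2 (filter_subset b _))).ncard_image, ← Nat.card_coe_set_eq]
  refine Nat.card_congr (Equiv.subtypeEquivRight fun T => ?_)
  simp only [le_iff, coe_filter, mem_range, Set.mem_image, Set.mem_ofPred_eq]
  exact ⟨fun ⟨⟨m, a, e⟩, t⟩ => ⟨m, ⟨a, (h m a).1 (e ▸ t)⟩, e⟩, fun ⟨m, a, e⟩ => ⟨⟨m, a.1, e⟩, e ▸ (h m a.1).2 a.2⟩⟩

def tr (m : ℕ) : Prop := #(toF m) = 7 ∧ ∀ u, (rc m (0, 0)).testBit (vx u)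

def sp (m : ℕ) : Prop := ∃ i : Fin 10, m.testBit i ∧
  ∀ v, 2 * #(univ.filter fun u => (rc (m ^^^ 2 ^ i.1) v).testBit (vx u)) = 8

instance : DecidablePred tr := fun _ => by unfold tr; infer_instance

instance : DecidablePred sp := fun _ => by unfold sp; infer_instance

lemma tr_iff {m : ℕ} (h : m < 1024) : (gr m).IsTree ↔ tr m := by
  rw [isTree_iff_connected_and_card, gr_e, Nat.card_coe_set_eq, Set.ncard_coe_finset, card_image_of_injective _ edi, tr,
    and_comm, connected_iff_exists_forall_reachable]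
  refine (and_congr_left' (b := #(toF m) = 7) (by simp)).trans (and_congr_right fun k => ?_)
  simp only [← rc_iff h (by omega)]
  exact ⟨fun ⟨v, t⟩ u => (t _).symm.trans (t u), fun t => ⟨_, t⟩⟩

lemma toF_x (m : ℕ) (i j : Fin 10) : j ∈ toF (m ^^^ 2 ^ i.1) ↔ (j ∈ toF m ↔ j ≠ i) := by
  by_cases e : j = i
  · simp [toF, e]
  · simp [toF, e, Nat.testBit_two_pow, Fin.val_inj, Ne.symm e]

lemma sp_iff {m : ℕ} (h : m < 1024) (k : tr m) : Split (gr m) ↔ sp m := by
  have z (i : Fin 10) (t : m.testBit i) : toF (m ^^^ 2 ^ i.1) = (toF m).erase i := by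
    ext j
    rw [toF_x]
    by_cases e : j = i <;> simp [e, toF, t]
  have a (i : Fin 10) (t : m.testBit i) : (gr m).deleteEdges {ed i} = gr (m ^^^ 2 ^ i.1) := by
    apply edgeSet_injective
    rw [edgeSet_deleteEdges, gr_e, gr_e, z i t, image_erase edi, coe_erase]
  have b (i : Fin 10) (t : m.testBit i) (v) : Nat.card {u // ((gr m).deleteEdges {ed i}).Reachable v u} =
      #(univ.filter fun u => (rc (m ^^^ 2 ^ i.1) v).testBit (vx u)) := by
    simp only [a i t, rc_iff (Nat.xor_lt_two_pow (n := 10) h (p2 i))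
      (by rw [z i t, card_erase_of_mem (by simpa [toF] using t), k.1]), Nat.card_eq_fintype_card, Fintype.card_subtype]
  have c : Nat.card V = 8 := by simp
  simp only [Split, sp, gr_e, mem_coe, mem_image, exists_exists_and_eq_and, c]
  refine exists_congr fun i => ?_
  simp only [toF, mem_filter, mem_univ, true_and]
  exact and_congr_right fun t => by simp only [b i t]

def P (m : ℕ) (e : Fin 10) : Finset (Fin 10) := (toF m).filter fun f => tr (m ^^^ 2 ^ f.1 ^^^ 2 ^ e.1)

def NS : Finset ℕ := (range 1024).filter fun m => tr m ∧ ¬ sp m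

lemma num : #((range 1024).filter tr) = 56 ∧ #((range 1024).filter fun m => tr m ∧ sp m) = 44 ∧
    ∑ m ∈ NS, c (P m) 3 (toF m)ᶜ = 67 / 315 := by decide +kernel

theorem main : MeasurableSet {w | ∀ T, IsMST G w T → Split T} ∧ (∀ w, ∃ T, IsMST G w T) ∧
    (Nat.card {T // T ≤ G ∧ T.IsTree ∧ Split T} : ℝ) / Nat.card {T // T ≤ G ∧ T.IsTree} <
      (Measure.pi fun _ : Sym2 V => ν).real {w | ∀ T, IsMST G w T → Split T} := by
  have W (w : Sym2 V → ℝ) (m) : ∑ᶠ e ∈ (gr m).edgeSet, w e = ∑ i ∈ toF m, w (ed i) := by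
    rw [gr_e, finsum_mem_coe_finset, sum_image edi.injOn]
  have M : MeasurableSet {w | ∀ T, IsMST G w T → Split T} := by
    have a (T : SimpleGraph V) : Measurable fun w : Sym2 V → ℝ => ∑ᶠ e ∈ T.edgeSet, w e := by
      simp only [finsum_mem_eq_finite_toFinset_sum _ T.edgeSet.toFinite]
      fun_prop
    exact measurableSet_setOfPred.2 (.forall fun T => .imp (.and measurable_const (.and measurable_const
      (.forall fun S => .imp measurable_const (.imp measurable_const ((a T).le' (a S)))))) measurable_const)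
  refine ⟨M, fun w => ?_, ?_⟩
  · obtain ⟨T, a, b⟩ := Set.exists_min_image {T | T ≤ G ∧ T.IsTree} (fun T => ∑ᶠ e ∈ T.edgeSet, w e) (Set.toFinite _)
      ⟨gr 439, (le_iff _).2 ⟨_, by norm_num, rfl⟩, (tr_iff (by norm_num)).2 (by decide +kernel)⟩
    exact ⟨T, a.1, a.2, fun S p q => b S ⟨p, q⟩⟩
  rw [cnt (b := fun m => tr m ∧ sp m) fun m h => (and_congr_left' (tr_iff h)).trans (and_congr_right fun k => sp_iff h k), cnt fun m h => tr_iff h, num.1, num.2.1,
    ← compl_compl {w | ∀ T, IsMST G w T → Split T}, probReal_compl_eq_one_sub M.compl]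
  have s : {w | ∀ T, IsMST G w T → Split T}ᶜ ∩ Set.pi Set.univ (fun _ => Set.Icc 0 1) ⊆
      ⋃ m ∈ NS, Ev ed (P m) (toF m)ᶜ ∅ 1 := by
    rintro w ⟨r, b⟩
    simp only [Set.mem_compl_iff, Set.mem_ofPred_eq, not_forall] at r
    obtain ⟨T, ⟨p, q, r⟩, t⟩ := r
    obtain ⟨m, l, rfl⟩ := (le_iff T).1 p
    refine Set.mem_biUnion (show m ∈ NS from mem_filter.2 ⟨mem_range.2 l, (tr_iff l).1 q, mt (sp_iff l ((tr_iff l).1 q)).2 t⟩)
      ⟨fun e a => ⟨(b _ trivial).2, fun f d => ?_⟩, by simp⟩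
    have d := mem_filter.1 d
    have l' := Nat.xor_lt_two_pow (n := 10) (Nat.xor_lt_two_pow (n := 10) l (p2 f)) (p2 e)
    have := r _ ((le_iff _).2 ⟨_, l', rfl⟩) ((tr_iff l').2 d.2)
    have a := mem_compl.1 a
    rw [W, W, show toF (m ^^^ 2 ^ f.1 ^^^ 2 ^ e.1) = insert e ((toF m).erase f) by
      ext j
      rw [toF_x, toF_x]
      have := ne_of_mem_of_not_mem d.1 a
      by_cases x : j = e <;> by_cases y : j = f <;> simp_all, sum_insert (mt mem_of_mem_erase a),
      ← add_sum_erase _ _ d.1] at this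
    linarith
  have f : Measure.pi (fun _ : Sym2 V => ν) {w | ∀ T, IsMST G w T → Split T}ᶜ ≤ ENNReal.ofReal (67 / 315) := by
    rw [← measure_inter_conull (t := Set.pi Set.univ fun _ => Set.Icc 0 1)
      ((prob_compl_eq_zero_iff (.univ_pi fun _ => measurableSet_Icc)).2 (by rw [Measure.pi_pi]; simp))]
    refine (measure_mono s).trans ((measure_biUnion_finset_le _ _).trans ((sum_le_sum fun m t => bound edi (P m) 3 _ ?_
      ?_ ∅ (by simp) 1 (by simp)).trans_eq ?_))
    · rw [card_compl, (mem_filter.1 t).2.1.1]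
      simp
    · exact disjoint_compl_left.mono_right (biUnion_subset.2 fun _ _ => filter_subset _ _)
    · simp only [one_pow, mul_one]
      rw [← ENNReal.ofReal_sum_of_nonneg fun _ _ => by exact_mod_cast c0 _ _ _, ← Rat.cast_sum, num.2.2]
      norm_num
  have := ENNReal.toReal_le_of_le_ofReal (by norm_num) f
  rw [Measure.real]
  push_cast
  linarith

end Pool.Agent.H.MP_ddaf7c_pr
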